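import Pool.Agent.Helper530.Sq.Fin5b
import Pool.Agent.Helper530.Sq.Assembly

open Finset Filter Topology

namespace Pool.Agent.Results.MP_21fe07_nt.LinearCount

/-- The number of squarefree entries in the first `N` rows of Pascal's triangle, divided by `N`,
converges to a positive real number. -/
theorem result : ∃ γ : ℝ, 0 < γ ∧ Tendsto (fun N : ℕ =>
    ((∑ n ∈ range N, ((range (n + 1)).filter
      (fun k => Squarefree (n.choose k))).card : ℕ) : ℝ) / (N : ℝ)) atTop (𝓝 γ) :=
  Pool.Agent.Helper530.Sq.assembly Pool.Agent.Helper530.Sq.main_bound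

end Pool.Agent.Results.MP_21fe07_nt.LinearCount
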